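import Pool.Agent.R443.CB2

/-!
# Congruences modulo 4 and 8 for a limiting two-colour partition function
-/

set_option autoImplicit false

namespace Pool.Agent.Results.MP_e258d6_nt.ThreeFamilies

open PowerSeries Finset Pool.Agent.R443

/-- The power series `1 / (1 - q^d)` (for `d ≥ 1`). -/
noncomputable def inv (d : ℕ) : ℤ⟦X⟧ := invOfUnit (1 - X ^ d) 1

/-- The summand with index `m`, both infinite products being cut after `N` factors:
`∏_{j<N} (1 + q^(2m+2+2j)) · q^(2m+1) · (∏_{j<N} 1 / (1 - q^(2m+1+2j)))²`. -/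
noncomputable def term (N m : ℕ) : ℤ⟦X⟧ :=
  (∏ j ∈ range N, (1 + X ^ (2 * m + 2 + 2 * j))) * X ^ (2 * m + 1) *
    (∏ j ∈ range N, inv (2 * m + 1 + 2 * j)) ^ 2

/-- The coefficient `c(n)` of `q^n` in the generating function.  The summands with `m > n` and the
factors with `j > n` do not contribute to this coefficient. -/
noncomputable def c (n : ℕ) : ℤ := coeff n (∑ m ∈ range (n + 1), term (n + 1) m)

theorem inv_eq (d : ℕ) : inv d = PS.iv d := rfl

/-- comparison of the two truncations -/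
theorem term_dvd {N m : ℕ} (h : m < N) : X ^ N ∣ term N m -
    (∏ i ∈ Ico m N, (1 + X ^ (2 * (i + 1)) : ℤ⟦X⟧)) * X ^ (2 * m + 1) *
    (∏ i ∈ Ico m N, PS.iv (2 * i + 1)) ^ 2 := by
  have e1 : ∏ j ∈ range N, (1 + X ^ (2 * m + 2 + 2 * j) : ℤ⟦X⟧) =
      (∏ i ∈ Ico m N, (1 + X ^ (2 * (i + 1)))) * ∏ i ∈ Ico N (m + N), (1 + X ^ (2 * (i + 1))) := by
    rw [prod_Ico_consecutive _ (by omega) (by omega), prod_Ico_eq_prod_range,
      show m + N - m = N by omega]
    apply prod_congr rfl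
    intro j _
    rw [show 2 * (m + j + 1) = 2 * m + 2 + 2 * j by ring]
  have e2 : ∏ j ∈ range N, inv (2 * m + 1 + 2 * j) =
      (∏ i ∈ Ico m N, PS.iv (2 * i + 1)) * ∏ i ∈ Ico N (m + N), PS.iv (2 * i + 1) := by
    rw [prod_Ico_consecutive _ (by omega) (by omega), prod_Ico_eq_prod_range,
      show m + N - m = N by omega]
    apply prod_congr rfl
    intro j _
    rw [inv_eq, show 2 * (m + j) + 1 = 2 * m + 1 + 2 * j by ring]
  unfold term
  rw [e1, e2]
  set A := ∏ i ∈ Ico m N, (1 + X ^ (2 * (i + 1)) : ℤ⟦X⟧)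
  set B := ∏ i ∈ Ico m N, PS.iv (2 * i + 1)
  set A' := ∏ i ∈ Ico N (m + N), (1 + X ^ (2 * (i + 1)) : ℤ⟦X⟧) with hA
  set B' := ∏ i ∈ Ico N (m + N), PS.iv (2 * i + 1) with hB
  have h1 : X ^ N ∣ A' - 1 := by
    apply CB.dvd_prod_sub_one
    intro i hi
    rw [mem_Ico] at hi
    rw [add_sub_cancel_left]
    exact pow_dvd_pow X (by omega)
  have h2 : X ^ N ∣ B' - 1 := by
    apply CB.dvd_prod_sub_one
    intro i hi
    rw [mem_Ico] at hi
    exact CB.iv_sub_one_dvd (by omega) (by omega)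
  have h3 : X ^ N ∣ A' * (B' * B') - 1 := CB.dvd_mul_sub_one h1 (CB.dvd_mul_sub_one h2 h2)
  have e : A * A' * X ^ (2 * m + 1) * (B * B') ^ 2 - A * X ^ (2 * m + 1) * B ^ 2 =
      A * X ^ (2 * m + 1) * B ^ 2 * (A' * (B' * B') - 1) := by ring
  rw [e]
  exact Dvd.dvd.mul_left h3 _

theorem c_eq (n : ℕ) : c n = CB.Cc n := by
  unfold c CB.Cc
  have h : X ^ (n + 1) ∣ ∑ m ∈ range (n + 1), term (n + 1) m - CB.G (n + 1) := by
    unfold CB.G
    rw [← sum_sub_distrib]
    apply dvd_sum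
    intro m hm
    exact term_dvd (mem_range.mp hm)
  have h1 := X_pow_dvd_iff.mp h n (by omega)
  rw [map_sub, sub_eq_zero] at h1
  exact h1

/-! ### Arithmetic -/

theorem sq8 (x : ℕ) : x * x % 8 = 0 ∨ x * x % 8 = 1 ∨ x * x % 8 = 4 := by
  have h : x % 8 = 0 ∨ x % 8 = 1 ∨ x % 8 = 2 ∨ x % 8 = 3 ∨ x % 8 = 4 ∨ x % 8 = 5 ∨ x % 8 = 6 ∨
    x % 8 = 7 := by omega
  rcases h with h | h | h | h | h | h | h | h <;> simp [Nat.mul_mod, h]

theorem nt1 (m : ℕ) : ∀ t x y b : ℕ,
    x * x + 4 ^ t * (8 * m + 1) ≠ 3 * (y * y) + 3 * (b * b) := by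
  intro t
  induction t with
  | zero =>
    intro x y b h
    rw [pow_zero, one_mul] at h
    rcases sq8 x with h1 | h1 | h1 <;> rcases sq8 y with h2 | h2 | h2 <;>
      rcases sq8 b with h3 | h3 | h3 <;> omega
  | succ t ih =>
    intro x y b h
    have e : 4 ^ (t + 1) * (8 * m + 1) = 4 * (4 ^ t * (8 * m + 1)) := by rw [pow_succ]; ring
    rw [e] at h
    obtain ⟨x', rfl⟩ := Quad.even_of_sq (a := x) (by
      rcases sq8 x with h1 | h1 | h1 <;> rcases sq8 y with h2 | h2 | h2 <;>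
        rcases sq8 b with h3 | h3 | h3 <;> omega)
    obtain ⟨y', rfl⟩ := Quad.even_of_sq (a := y) (by
      have e1 : 2 * x' * (2 * x') = 4 * (x' * x') := by ring
      rcases sq8 y with h2 | h2 | h2 <;>
        rcases sq8 b with h3 | h3 | h3 <;> omega)
    obtain ⟨b', rfl⟩ := Quad.even_of_sq (a := b) (by
      have e1 : 2 * x' * (2 * x') = 4 * (x' * x') := by ring
      have e2 : 2 * y' * (2 * y') = 4 * (y' * y') := by ring
      rcases sq8 b with h3 | h3 | h3 <;> omega)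
    apply ih x' y' b'
    have e1 : 2 * x' * (2 * x') = 4 * (x' * x') := by ring
    have e2 : 2 * y' * (2 * y') = 4 * (y' * y') := by ring
    have e3 : 2 * b' * (2 * b') = 4 * (b' * b') := by ring
    omega

theorem nt2 (m : ℕ) : ∀ t x b : ℕ, 2 * (x * x) + 6 * (b * b) ≠ 4 ^ t * (8 * m + 1) := by
  intro t
  induction t with
  | zero =>
    intro x b h
    rw [pow_zero, one_mul] at h
    omega
  | succ t ih =>
    intro x b h
    rcases t with _ | s
    · rw [zero_add, pow_one] at h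
      rcases sq8 x with h1 | h1 | h1 <;> rcases sq8 b with h3 | h3 | h3 <;> omega
    · have e : 4 ^ (s + 1 + 1) * (8 * m + 1) = 16 * (4 ^ s * (8 * m + 1)) := by
        rw [pow_succ, pow_succ]; ring
      have e' : 4 ^ (s + 1) * (8 * m + 1) = 4 * (4 ^ s * (8 * m + 1)) := by
        rw [pow_succ]; ring
      rw [e] at h
      obtain ⟨x', rfl⟩ := Quad.even_of_sq (a := x) (by
        rcases sq8 x with h1 | h1 | h1 <;> rcases sq8 b with h3 | h3 | h3 <;> omega)
      have e1 : 2 * x' * (2 * x') = 4 * (x' * x') := by ring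
      obtain ⟨b', rfl⟩ := Quad.even_of_sq (a := b) (by
        rcases sq8 b with h3 | h3 | h3 <;> omega)
      apply ih x' b'
      rw [e']
      have e3 : 2 * b' * (2 * b') = 4 * (b' * b') := by ring
      omega

theorem nt3 {L : ℕ} (hL : ∀ x : ℕ, 2 * (x * x) ≠ L) : ∀ t x : ℕ, 2 * (x * x) ≠ 4 ^ t * L := by
  intro t
  induction t with
  | zero =>
    intro x h
    rw [pow_zero, one_mul] at h
    exact hL x h
  | succ t ih =>
    intro x h
    have e : 4 ^ (t + 1) * L = 4 * (4 ^ t * L) := by rw [pow_succ]; ring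
    rw [e] at h
    obtain ⟨x', rfl⟩ := Quad.even_of_sq (a := x) (by omega)
    apply ih x'
    have e1 : 2 * x' * (2 * x') = 4 * (x' * x') := by ring
    omega

/-- the two families modulo four -/
theorem family_four {L k N : ℕ} (hN : 3 * N = 4 ^ k * L + 1) (hL : ∀ x : ℕ, 2 * (x * x) ≠ L)
    (hp : 2 ∣ Quad.r1 L + Quad.r2 L) : (4 : ℤ) ∣ c N := by
  rw [c_eq]
  have e : 3 * N - 1 = 4 ^ k * L := by omega
  apply CB.four_dvd (by omega)
  · intro x _ h
    exact nt3 hL k x (by omega)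
  · rw [e]
    exact Quad.parity_pow hp k

/-- the family modulo eight -/
theorem family_eight {m k N : ℕ} (hN : 3 * N = 4 ^ k * (8 * m + 1) + 1) : (8 : ℤ) ∣ c N := by
  rw [c_eq]
  apply CB.eight_dvd
  · intro x κ b _ h
    apply nt1 m k x (x + κ) b
    have e : 3 * ((x + κ) * (x + κ)) = x * x + (2 * (x * x) + 6 * (x * κ) + 3 * (κ * κ)) := by
      ring
    omega
  · intro x b _ h
    exact nt2 m k x b (by omega)

theorem four_pow_mod (k : ℕ) : 4 ^ k % 3 = 1 := by
  rw [Nat.pow_mod]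
  simp

/-- All three families of congruences hold for all `k ≥ 1` (and also for `k = 0`). -/
theorem result : ∀ k n : ℕ, 1 ≤ k →
    (4 : ℤ) ∣ c (2 ^ (2 * k + 3) * n + (11 * 4 ^ k + 1) / 3) ∧
    (8 : ℤ) ∣ c (2 ^ (2 * k + 3) * n + (17 * 4 ^ k + 1) / 3) ∧
    (4 : ℤ) ∣ c (2 ^ (2 * k + 4) * n + (38 * 4 ^ k + 1) / 3) := by
  intro k n _
  have hk := four_pow_mod k
  have e3 : 2 ^ (2 * k + 3) * n = 8 * (4 ^ k * n) := by
    rw [pow_add, pow_mul]; norm_num; ring
  have e4 : 2 ^ (2 * k + 4) * n = 16 * (4 ^ k * n) := by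
    rw [pow_add, pow_mul]; norm_num; ring
  refine ⟨?_, ?_, ?_⟩
  · apply family_four (L := 24 * n + 11) (k := k)
    · rw [e3]
      have e : 4 ^ k * (24 * n + 11) = 24 * (4 ^ k * n) + 11 * 4 ^ k := by ring
      omega
    · intro x hx
      omega
    · exact Quad.parity_one (by omega)
  · apply family_eight (m := 3 * n + 2) (k := k)
    rw [e3]
    have e : 4 ^ k * (8 * (3 * n + 2) + 1) = 24 * (4 ^ k * n) + 17 * 4 ^ k := by ring
    omega
  · apply family_four (L := 2 * (24 * n + 19)) (k := k)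
    · rw [e4]
      have e : 4 ^ k * (2 * (24 * n + 19)) = 48 * (4 ^ k * n) + 38 * 4 ^ k := by ring
      omega
    · intro x hx
      have := sq8 x
      omega
    · exact Quad.parity_two (by omega)

end Pool.Agent.Results.MP_e258d6_nt.ThreeFamilies
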